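import Pool.Agent.H93.Hofo.Ultra

/-!
# The `A_4` condition is not expressible in homotopical first-order logic

The definitions are in `Pool/Agent/H93/Hofo/Defs.lean`.

Idea of the proof. For a group `N` and a set `L` of labels we consider structures on `L × BN` of
the form `((c, σ), (c', σ')) ↦ (c c', λ(c, c') σ)`. Here `N = D_5 × Z/2`, and `L` is built from a
self-map of a set `V`; the structure satisfies `A_4` if and only if there is a `2`-colouring `p` of
`V` with `p (f v) ≠ p v` for all `v` (`A4_of_colouring`, `colouring_of_A4`). Truth of a sentence in
these structures only depends on a finite type computed from `(V, f)` (`force_iff`), and so it is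
compatible with ultraproducts of the `(V, f)` (`los`). Cycles of odd length have no colouring, and
their ultraproduct has one.
-/

open CategoryTheory MonoidalCategory

namespace Pool.Agent.Results.MP_19b7cf_lc.Inexpressible

open Pool.Agent.H93.Hofo

/-- There is no sentence `φ` such that, for every Kan complex `X` with a simplicial map
`μ : X × X → X`, the sentence `φ` is satisfied by `(X, μ)` if and only if `μ` satisfies `A_4`. -/
theorem result : ¬ ∃ φ : Fml 0, ∀ (X : SSet.{0}) [SSet.KanComplex X] (μ : X ⊗ X ⟶ X),
    Sat μ φ ↔ A4 μ :=
  main

end Pool.Agent.Results.MP_19b7cf_lc.Inexpressible
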